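import Mathlib

set_option autoImplicit false

namespace Pool.Agent.Results.MP_b944bf_lc.SqrtLower

open Sum

/-- `d` is a pseudometric -/
def IsPseudometric {X : Type} (d : X → X → ℝ) : Prop :=
  (∀ x, d x x = 0) ∧ (∀ x y, d x y = d y x) ∧ ∀ x y z, d x z ≤ d x y + d y z

/-- `σ a b` is the position of item `b` in the ranking of agent `a` (smaller is better); agents
are `inl a`, items are `inr b` -/
def Consistent {n : ℕ} (σ : Fin n → Equiv.Perm (Fin n)) (d : Fin n ⊕ Fin n → Fin n ⊕ Fin n → ℝ) :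
    Prop :=
  ∀ a b b', σ a b < σ a b' → d (inl a) (inr b) ≤ d (inl a) (inr b')

def D {X : Type} (C : ℕ) (p g H : X → ℕ) (x y : X) : ℕ :=
  min C (max (p x - p y + (p y - p x))
    (if g x = g y then H x - H y + (H y - H x) else max (H x) (H y)))

lemma mm {C x x1 x2 y y1 y2 : ℕ} (h1 : x ≤ x1 + x2) (h2 : y ≤ y1 + y2) :
    min C (max x y) ≤ min C (max x1 y1) + min C (max x2 y2) := by omega

lemma D_pseudo {X : Type} (C : ℕ) (p g H : X → ℕ) :
    IsPseudometric fun x y => (D C p g H x y : ℝ) := by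
  refine ⟨fun x => by simp [D], fun x y => ?_, fun x y z => ?_⟩
  · beta_reduce
    unfold D
    rw [add_comm (p x - p y), add_comm (H x - H y), max_comm (H x)]
    simp only [eq_comm (a := g x)]
  · have : D C p g H x z ≤ D C p g H x y + D C p g H y z :=
      mm (by omega) (by split_ifs <;> omega)
    beta_reduce
    exact_mod_cast this

def pL {n : ℕ} : Fin n ⊕ Fin n → ℕ
  | inl a => 2 * a + 1
  | inr b => 2 * b

def pR {n : ℕ} : Fin n ⊕ Fin n → ℕ
  | inl a => 2 * a + 1
  | inr b => if (b : ℕ) = 0 then 2 * n else 2 * b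

def HL {n : ℕ} (C m : ℕ) : Fin n ⊕ Fin n → ℕ
  | inl a => if m ≤ (a : ℕ) then (a - m) / C + 1 else 0
  | inr b => (b - m) / C

def HR {n : ℕ} (C m : ℕ) : Fin n ⊕ Fin n → ℕ
  | inl a => if (a : ℕ) < m then (m - (a + 1)) / C + 1 else 0
  | inr b => if (b : ℕ) = 0 then 0 else (m - b) / C

def dL {n : ℕ} (C m : ℕ) : Fin n ⊕ Fin n → Fin n ⊕ Fin n → ℕ :=
  D C pL (fun x => pL x / 2) (HL C m)

def dR {n : ℕ} (C m : ℕ) : Fin n ⊕ Fin n → Fin n ⊕ Fin n → ℕ :=
  D C pR (fun x => (pR x + 1) / 2) (HR C m)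

lemma P1 {C : ℕ} (hC : 0 < C) (s t : ℕ) : t ≤ s + C → t / C ≤ s / C + 1 := fun h =>
  (Nat.div_le_div_right h).trans (Nat.add_div_right s hC).le

lemma P3 {C : ℕ} (hC : 0 < C) (t : ℕ) : C * C ≤ t → C ≤ t / C := fun h =>
  (Nat.le_div_iff_mul_le hC).2 h

lemma D_le {X : Type} (C : ℕ) (p g H : X → ℕ) (x y : X) : D C p g H x y ≤ C := min_le_left _ _

lemma D_up {X : Type} (C : ℕ) (p g H : X → ℕ) (x y : X) :
    D C p g H x y ≤ max (p x - p y + (p y - p x)) (max (H x) (H y)) := by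
  unfold D; split_ifs <;> omega

lemma D_lo {X : Type} (C : ℕ) (p g H : X → ℕ) (x y : X) :
    min C (p x - p y + (p y - p x)) ≤ D C p g H x y := min_le_min_left _ (le_max_left _ _)

lemma D_lo' {X : Type} (C : ℕ) (p g H : X → ℕ) (x y : X) (h : g x ≠ g y) :
    min C (H x) ≤ D C p g H x y := by
  unfold D; rw [if_neg h]; omega

lemma comono {n C m : ℕ} (hC : 0 < C) (hm : C * C + C ≤ m) (hn : m + (C * C + C) ≤ n)
    (a b b' : Fin n) (h : dR C m (inl a) (inr b') < dR C m (inl a) (inr b)) :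
    dL C m (inl a) (inr b') ≤ dL C m (inl a) (inr b) := by
  have ha := a.2
  have hb := b.2
  have hb' := b'.2
  by_contra hc
  have r1 : dR C m (inl a) (inr b) ≤ C := D_le _ _ _ _ _ _
  have r2 : dL C m (inl a) (inr b') ≤ C := D_le _ _ _ _ _ _
  have r3 : dR C m (inl a) (inr b) ≤ _ := D_up _ _ _ _ _ _
  have r4 : dL C m (inl a) (inr b') ≤ _ := D_up _ _ _ _ _ _
  have r5 : _ ≤ dR C m (inl a) (inr b') := D_lo _ _ _ _ _ _
  have r6 : _ ≤ dL C m (inl a) (inr b) := D_lo _ _ _ _ _ _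
  have r7 : _ → _ ≤ dR C m (inl a) (inr b') := D_lo' _ _ _ _ _ _
  have r8 : _ → _ ≤ dL C m (inl a) (inr b) := D_lo' _ _ _ _ _ _
  simp only [pL, pR, HL, HR] at r3 r4 r5 r6 r7 r8
  generalize dR C m (inl a) (inr b) = x1 at *
  generalize dR C m (inl a) (inr b') = x2 at *
  generalize dL C m (inl a) (inr b) = x3 at *
  generalize dL C m (inl a) (inr b') = x4 at *
  by_cases hl : (a : ℕ) < m
  · have e2 := Nat.div_le_self (b' - m) C
    have f2 := P1 hC (m - (a + 1)) (m - b)
    have g2 := P3 hC (m - (a + 1))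
    rw [if_neg (not_le.2 hl)] at r4
    rw [if_pos hl] at r3 r7
    clear r8
    generalize (m - (a + 1)) / C = u2 at *
    generalize (b' - m) / C = u4 at *
    generalize (m - b) / C = u5 at *
    generalize C * C = Q at *
    split_ifs at r3 r5 r7 <;> omega
  · have e3 := Nat.div_le_self (m - b) C
    have f1 := P1 hC (a - m) (b' - m)
    have g1 := P3 hC (a - m)
    rw [if_pos (not_lt.1 hl)] at r4 r8
    rw [if_neg hl] at r3
    clear r7
    generalize (a - m) / C = u1 at *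
    generalize (b' - m) / C = u4 at *
    generalize (m - b) / C = u5 at *
    generalize C * C = Q at *
    split_ifs at r3 r5 <;> omega

theorem result (C n : ℕ) (hn : 2 * (C * C + C) ≤ n) (hn1 : 1 ≤ n) :
    ∃ σ : Fin n → Equiv.Perm (Fin n), ∀ M : Equiv.Perm (Fin n),
      ∃ d : Fin n ⊕ Fin n → Fin n ⊕ Fin n → ℝ, IsPseudometric d ∧ Consistent σ d ∧
        (∃ M' : Equiv.Perm (Fin n), ∀ a, d (inl a) (inr (M' a)) ≤ 1) ∧
        ∃ a, (C : ℝ) ≤ d (inl a) (inr (M a)) := by
  rcases Nat.eq_zero_or_pos C with rfl | hC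
  · exact ⟨fun _ => 1, fun M => ⟨fun _ _ => 0, ⟨fun _ => rfl, fun _ _ => rfl, by simp⟩,
      fun _ _ _ _ => le_rfl, ⟨1, by simp⟩, ⟨0, hn1⟩, by simp⟩⟩
  obtain ⟨n, rfl⟩ : ∃ k, n = k + 1 := ⟨n - 1, by omega⟩
  set m := C * C + C with hm
  let κ : Fin (n + 1) → Fin (n + 1) → ℕ := fun a b =>
    dR C m (inl a) (inr b) + dL C m (inl a) (inr b)
  have hκ : ∀ a b b', (Tuple.sort (κ a)).symm b < (Tuple.sort (κ a)).symm b' → κ a b ≤ κ a b' := by
    intro a b b' h
    simpa using Tuple.monotone_sort (κ a) h.le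
  refine ⟨fun a => (Tuple.sort (κ a)).symm, fun M => ?_⟩
  by_cases h : (M.symm 0 : ℕ) < m
  · refine ⟨fun x y => dR C m x y, D_pseudo _ _ _ _, fun a b b' hb => ?_, ⟨finRotate _, fun a => ?_⟩,
      M.symm 0, ?_⟩
    · have h1 := hκ a b b' hb
      have h2 := comono hC hm.ge (by omega) a b b'
      simp only [κ] at h1
      beta_reduce
      exact_mod_cast (by omega : dR C m (inl a) (inr b) ≤ dR C m (inl a) (inr b'))
    · have : dR C m (inl a) (inr (finRotate _ a)) ≤ 1 := by
        have ha := a.2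
        have h0 : m ≤ a + 1 → (m - (a + 1)) / C = 0 := fun h => by simp [Nat.sub_eq_zero_of_le h]
        by_cases hl : a = Fin.last n
        · subst hl
          simp only [finRotate_last, dR, D, pR, HR, Fin.val_last, Fin.val_zero, if_true]
          split_ifs <;> omega
        · simp only [dR, D, pR, HR, coe_finRotate_of_ne_last hl, Nat.succ_ne_zero, if_false]
          split_ifs <;> omega
      beta_reduce
      exact_mod_cast this
    · have : C ≤ dR C m (inl (M.symm 0)) (inr (M (M.symm 0))) := by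
        simp only [Equiv.apply_symm_apply, dR, D, pR, HR, Fin.val_zero, if_true]
        omega
      beta_reduce
      exact_mod_cast this
  · refine ⟨fun x y => dL C m x y, D_pseudo _ _ _ _, fun a b b' hb => ?_, ⟨1, fun a => ?_⟩,
      M.symm 0, ?_⟩
    · have h1 := hκ a b b' hb
      have h2 := comono hC hm.ge (by omega) a b' b
      simp only [κ] at h1
      beta_reduce
      exact_mod_cast (by omega : dL C m (inl a) (inr b) ≤ dL C m (inl a) (inr b'))
    · have : dL C m (inl a) (inr a) ≤ 1 := by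
        have h0 : (a : ℕ) ≤ m → (a - m) / C = 0 := fun h => by simp [Nat.sub_eq_zero_of_le h]
        simp only [dL, D, pL, HL]
        split_ifs <;> omega
      show ((dL C m (inl a) (inr a) : ℕ) : ℝ) ≤ 1
      exact_mod_cast this
    · have : C ≤ dL C m (inl (M.symm 0)) (inr (M (M.symm 0))) := by
        simp only [Equiv.apply_symm_apply, dL, D, pL, HL, Fin.val_zero]
        omega
      beta_reduce
      exact_mod_cast this

end Pool.Agent.Results.MP_b944bf_lc.SqrtLower
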